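import Pool.Agent.Lib_MP_909c8f.Mult
import Pool.Agent.Lib_MP_909c8f.NonR
import Pool.Agent.Lib_MP_909c8f.ExGood

/-!
# MP_909c8f_al, Q1: a negative answer under the continuum hypothesis
-/

open MP909

/-- Under CH there are Hausdorff Abelian topological groups `G`, `H` such that `G × H` is
multiplicatively ℝ-factorizable and neither `G` nor `H` is ℝ-factorizable. -/
theorem Pool.Agent.Results.MP_909c8f_al.NoFactorUnderCH.result
    (hCH : Cardinal.continuum = Cardinal.aleph 1) :
    ∃ (G H : Type) (_ : CommGroup G) (_ : CommGroup H) (_ : TopologicalSpace G)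
      (_ : TopologicalSpace H), IsTopologicalGroup G ∧ IsTopologicalGroup H ∧ T2Space G ∧
      T2Space H ∧ MultRFactorizable G H ∧ ¬ RFactorizable.{0} G ∧ ¬ RFactorizable.{0} H := by
  obtain ⟨x, hx⟩ := exists_good hCH
  have := t2 x hx.inj
  refine ⟨Multiplicative (GG x false), Multiplicative (GG x true), inferInstance, inferInstance,
    inferInstance, inferInstance, inferInstance, inferInstance, ?_, ?_, mult hx, nonR hx false,
    nonR hx true⟩
  · exact inferInstanceAs (T2Space (GG x false))
  · exact inferInstanceAs (T2Space (GG x true))
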